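import Pool.Agent.Y239.U.BLK

set_option autoImplicit false

namespace Pool.Agent.Y239.U

open Finset Pool.Agent.W788.NV Pool.Agent.Y202.U

section

variable {V : Type} [Fintype V] [DecidableEq V] (G : SimpleGraph V) (q : ℕ) (θ : ℝ)

/-! ### the rates -/

theorem mr_nonneg {Δ : ℕ} (hS : SA G q θ Δ) (e : (V × Fin q) ⊕ (V × V)) : 0 ≤ mrate G q θ e :=
  (p_tot V G q θ (by have := hS.q2; omega) hS.t0.le hS.t1 hS.d1).1 e

theorem mr_self (v : V) : mrate G q θ (Sum.inr (v, v)) = 0 := by
  simp [mrate]

theorem mr_le {Δ : ℕ} (hS : SA G q θ Δ) (v w : V) : mrate G q θ (Sum.inr (v, w)) ≤ 1 := by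
  unfold mrate
  dsimp only
  split_ifs
  · have h1 : (1:ℝ) ≤ (dg G v : ℝ) := by exact_mod_cast hS.d1 v
    rw [div_le_one (by linarith)]
    have := hS.t0
    linarith
  · exact zero_le_one

theorem mr_sum {Δ : ℕ} (hS : SA G q θ Δ) (v : V) : ∑ w, mrate G q θ (Sum.inr (v, w)) ≤ 1 := by
  classical
  unfold mrate
  dsimp only
  rw [← Finset.sum_filter, Finset.sum_const, nsmul_eq_mul]
  have h1 : (1:ℝ) ≤ (dg G v : ℝ) := by exact_mod_cast hS.d1 v
  have h2 : (((univ.filter fun w => G.Adj v w).card : ℕ) : ℝ) = (dg G v : ℝ) := by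
    unfold dg
    norm_cast
  rw [h2]
  have h3 : (dg G v : ℝ) * ((1 - θ) / (dg G v : ℝ)) = 1 - θ := by
    field_simp
  rw [h3]
  have := hS.t0
  linarith

/-! ### linearity and monotonicity -/

theorem src_sum {κ : Type} [Fintype κ] (t : ℝ) (c : κ → ℝ) (F : κ → (V → Option V) → ℝ) :
    src G q θ t (fun σ => ∑ k, c k * F k σ) = ∑ k, c k * src G q θ t (F k) :=
  p_mk.lin _ _ κ _ _ c F some t

theorem src_mul (t c : ℝ) (F : (V → Option V) → ℝ) :
    src G q θ t (fun σ => c * F σ) = c * src G q θ t F := by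
  have := src_sum G q θ t (κ := Unit) (fun _ => c) (fun _ => F)
  simpa using this

theorem src_add (t : ℝ) (F F' : (V → Option V) → ℝ) :
    src G q θ t (fun σ => F σ + F' σ) = src G q θ t F + src G q θ t F' := by
  have := src_sum G q θ t (κ := Bool) (fun _ => 1) (fun b => if b then F else F')
  simpa using this

theorem src_mono {Δ : ℕ} (hS : SA G q θ Δ) {t : ℝ} (ht : 0 ≤ t) {F F' : (V → Option V) → ℝ}
    (h : ∀ σ, F σ ≤ F' σ) : src G q θ t F ≤ src G q θ t F' :=
  p_mk.mono _ _ _ _ _ _ some t (mr_nonneg G q θ hS) ht h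

theorem src_cst (t c : ℝ) : src G q θ t (fun _ => c) = c := p_mk.cst _ _ _ _ c some t

theorem src_fsum {κ : Type} [Fintype κ] (t : ℝ) (F : κ → (V → Option V) → ℝ) :
    src G q θ t (fun σ => ∑ k, F k σ) = ∑ k, src G q θ t (F k) := by
  have := src_sum G q θ t (fun _ => 1) F
  simpa using this

/-! ### the kernel as an expectation -/

open Classical in
/-- the weight of the source map -/
noncomputable def gS (S : Finset V) (σ : V → Option V) : ℝ :=
  ∑ p : V × V, mrate G q θ (Sum.inr p) * (if Im S {p.1, p.2} σ then 1 else 0)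

theorem Ws_eq (t : ℝ) (S : Finset V) : Ws G q θ t S = src G q θ t (gS G q θ S) := by
  classical
  unfold gS
  rw [src_sum]
  unfold Ws
  rw [Fintype.sum_prod_type]
  refine sum_congr rfl fun v _ => sum_congr rfl fun w _ => ?_
  congr 1

theorem gS_nonneg {Δ : ℕ} (hS : SA G q θ Δ) (S : Finset V) (σ : V → Option V) :
    0 ≤ gS G q θ S σ := by
  classical
  refine sum_nonneg fun p _ => mul_nonneg (mr_nonneg G q θ hS _) ?_
  split_ifs <;> norm_num

end

/-! ### combinatorics -/

theorem comb {V : Type} [DecidableEq V] {S : Finset V} {v w v' w' : V} {σ σ' : V → Option V}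
    (hvw : v ≠ w) (hvw' : v' ≠ w') (h : Im S {v, w} σ) (h' : Im S {v', w'} σ') :
    ∃ a b, Im {a, b} {v, w} σ ∧ Im {a, b} {v', w'} σ' := by
  have key : ∃ a ∈ S, ∃ b ∈ S, σ a ≠ σ b ∧ σ' a ≠ σ' b := by
    obtain ⟨a, ha, hav⟩ := h.2 v (by simp)
    obtain ⟨b, hb, hbw⟩ := h.2 w (by simp)
    have hab : σ a ≠ σ b := by
      rw [hav, hbw]; simpa using hvw
    by_cases hab' : σ' a = σ' b
    · obtain ⟨c, hc, hcv⟩ := h'.2 v' (by simp)
      obtain ⟨d, hd, hdw⟩ := h'.2 w' (by simp)
      have hcd : σ' c ≠ σ' d := by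
        rw [hcv, hdw]; simpa using hvw'
      obtain ⟨e, he, hea⟩ : ∃ e ∈ S, σ' e ≠ σ' a := by
        by_cases h1 : σ' c = σ' a
        · refine ⟨d, hd, ?_⟩
          rw [← h1]; exact fun h2 => hcd h2.symm
        · exact ⟨c, hc, h1⟩
      by_cases h2 : σ e = σ a
      · refine ⟨e, he, b, hb, ?_, ?_⟩
        · rw [h2]; exact hab
        · rw [← hab']; exact hea
      · exact ⟨e, he, a, ha, h2, hea⟩
    · exact ⟨a, ha, b, hb, hab, hab'⟩
  obtain ⟨a, ha, b, hb, h1, h2⟩ := key
  refine ⟨a, b, ?_, ?_⟩
  · constructor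
    · intro c hc
      simp only [mem_insert, mem_singleton] at hc
      rcases hc with rfl | rfl
      · exact h.1 _ ha
      · exact h.1 _ hb
    · intro u hu
      obtain ⟨x, hx, hxa⟩ := h.1 a ha
      obtain ⟨y, hy, hyb⟩ := h.1 b hb
      have hxy : x ≠ y := fun e => h1 (by rw [hxa, hyb, e])
      simp only [mem_insert, mem_singleton] at hx hy hu
      have : u = x ∨ u = y := by
        rcases hx with rfl | rfl <;> rcases hy with rfl | rfl <;> rcases hu with rfl | rfl <;>
          simp_all
      rcases this with rfl | rfl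
      · exact ⟨a, by simp, hxa⟩
      · exact ⟨b, by simp, hyb⟩
  · constructor
    · intro c hc
      simp only [mem_insert, mem_singleton] at hc
      rcases hc with rfl | rfl
      · exact h'.1 _ ha
      · exact h'.1 _ hb
    · intro u hu
      obtain ⟨x, hx, hxa⟩ := h'.1 a ha
      obtain ⟨y, hy, hyb⟩ := h'.1 b hb
      have hxy : x ≠ y := fun e => h2 (by rw [hxa, hyb, e])
      simp only [mem_insert, mem_singleton] at hx hy hu
      have : u = x ∨ u = y := by
        rcases hx with rfl | rfl <;> rcases hy with rfl | rfl <;> rcases hu with rfl | rfl <;>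
          simp_all
      rcases this with rfl | rfl
      · exact ⟨a, by simp, hxa⟩
      · exact ⟨b, by simp, hyb⟩

theorem card_small {V : Type} [Fintype V] [DecidableEq V] (D : Finset V) (k : ℕ) :
    ((univ : Finset (Finset V)).filter (fun S => S.card ≤ k ∧ S ⊆ D)).card ≤ (1 + D.card) ^ k := by
  induction k with
  | zero =>
    rw [pow_zero, card_le_one]
    intro a ha b hb
    simp only [mem_filter, mem_univ, true_and, nonpos_iff_eq_zero, card_eq_zero] at ha hb
    rw [ha.1, hb.1]
  | succ k ih =>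
    have hsub : ((univ : Finset (Finset V)).filter (fun S => S.card ≤ k + 1 ∧ S ⊆ D)) ⊆
        ((((univ : Finset (Finset V)).filter (fun S => S.card ≤ k ∧ S ⊆ D)) ×ˢ
          (insertNone D)).image (fun p => p.1 ∪ p.2.toFinset)) := by
      intro S hS
      simp only [mem_filter, mem_univ, true_and] at hS
      rw [mem_image]
      rcases S.eq_empty_or_nonempty with rfl | ⟨a, ha⟩
      · refine ⟨(∅, none), ?_, by simp⟩
        simp
      · refine ⟨(S.erase a, some a), ?_, ?_⟩
        · rw [mem_product]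
          refine ⟨?_, ?_⟩
          · simp only [mem_filter, mem_univ, true_and]
            refine ⟨?_, (erase_subset _ _).trans hS.2⟩
            rw [card_erase_of_mem ha]; omega
          · simpa using hS.2 ha
        · ext x
          by_cases hx : x = a <;> simp [hx, ha]
    refine (card_le_card hsub).trans (card_image_le.trans ?_)
    rw [card_product, card_insertNone, pow_succ]
    rw [add_comm D.card 1]
    exact Nat.mul_le_mul_right _ ih

theorem im_sub {V : Type} [Fintype V] [DecidableEq V] {S : Finset V} {v w : V}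
    {σ : V → Option V} (h : Im S {v, w} σ) : S ⊆ bl σ v ∪ bl σ w := by
  intro a ha
  obtain ⟨x, hx, hxa⟩ := h.1 a ha
  simp only [mem_insert, mem_singleton] at hx
  rw [mem_union, mem_bl, mem_bl]
  rcases hx with rfl | rfl
  · exact Or.inl hxa
  · exact Or.inr hxa

theorem bl_card {V : Type} [Fintype V] [DecidableEq V] {v w : V} (hvw : v ≠ w)
    (σ : V → Option V) : (bl σ v).card + (bl σ w).card ≤ Fintype.card V := by
  have hd : Disjoint (bl σ v) (bl σ w) := by
    rw [disjoint_left]
    intro a ha hb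
    rw [mem_bl] at ha hb
    exact hvw (Option.some_injective _ (ha.symm.trans hb))
  rw [← card_union_of_disjoint hd]
  exact card_le_univ _

section

variable {V : Type} [Fintype V] [DecidableEq V] (G : SimpleGraph V) (q : ℕ) (θ : ℝ)

open Classical in
/-- the weight with the sizes of the blocks -/
noncomputable def Gk (k : ℕ) (S : Finset V) (σ : V → Option V) : ℝ :=
  ∑ p : V × V, mrate G q θ (Sum.inr p) * (if Im S {p.1, p.2} σ then
    (1 + ((bl σ p.1).card : ℝ) + ((bl σ p.2).card : ℝ)) ^ k else 0)

theorem pw {Δ : ℕ} (hS : SA G q θ Δ) (k : ℕ) (σ σ' : V → Option V) :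
    ∑ S : Finset V, (if S.card ≤ k then gS G q θ S σ * gS G q θ S σ' else 0) ≤
      ∑ p : V × V, Gk G q θ k {p.1, p.2} σ * gS G q θ {p.1, p.2} σ' := by
  classical
  have hL : ∑ S : Finset V, (if S.card ≤ k then gS G q θ S σ * gS G q θ S σ' else 0) =
      ∑ p : V × V, ∑ p' : V × V, mrate G q θ (Sum.inr p) * mrate G q θ (Sum.inr p') *
        ∑ S : Finset V, (if S.card ≤ k then
          (if Im S {p.1, p.2} σ then (1:ℝ) else 0) * (if Im S {p'.1, p'.2} σ' then 1 else 0)
          else 0) := by
    simp only [mul_sum]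
    rw [sum_comm' (s := univ) (t := fun _ => univ) (t' := univ) (s' := fun _ => univ)
      (by simp) (f := fun p p' => ∑ S : Finset V, _)]
    rw [sum_comm]
    have e : ∀ S : Finset V, (if S.card ≤ k then gS G q θ S σ * gS G q θ S σ' else 0) =
        ∑ p : V × V, ∑ p' : V × V, mrate G q θ (Sum.inr p) * mrate G q θ (Sum.inr p') *
        (if S.card ≤ k then
          (if Im S {p.1, p.2} σ then (1:ℝ) else 0) * (if Im S {p'.1, p'.2} σ' then 1 else 0)
          else 0) := by
      intro S
      by_cases h : S.card ≤ k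
      · simp only [h, if_true]
        unfold gS
        rw [sum_mul_sum]
        refine sum_congr rfl fun p _ => sum_congr rfl fun p' _ => ?_
        ring
      · simp [h]
    rw [sum_congr rfl fun S _ => e S, sum_comm]
    refine sum_congr rfl fun p _ => ?_
    rw [sum_comm]
  have hR : ∑ r : V × V, Gk G q θ k {r.1, r.2} σ * gS G q θ {r.1, r.2} σ' =
      ∑ p : V × V, ∑ p' : V × V, mrate G q θ (Sum.inr p) * mrate G q θ (Sum.inr p') *
        ∑ r : V × V, (if Im {r.1, r.2} {p.1, p.2} σ then
          (1 + ((bl σ p.1).card : ℝ) + ((bl σ p.2).card : ℝ)) ^ k else 0) *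
          (if Im {r.1, r.2} {p'.1, p'.2} σ' then 1 else 0) := by
    simp only [mul_sum]
    have e : ∀ r : V × V, Gk G q θ k {r.1, r.2} σ * gS G q θ {r.1, r.2} σ' =
        ∑ p : V × V, ∑ p' : V × V, mrate G q θ (Sum.inr p) * mrate G q θ (Sum.inr p') *
        ((if Im {r.1, r.2} {p.1, p.2} σ then
          (1 + ((bl σ p.1).card : ℝ) + ((bl σ p.2).card : ℝ)) ^ k else 0) *
          (if Im {r.1, r.2} {p'.1, p'.2} σ' then 1 else 0)) := by
      intro r
      unfold gS Gk
      rw [sum_mul_sum]
      refine sum_congr rfl fun p _ => sum_congr rfl fun p' _ => ?_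
      ring
    rw [sum_congr rfl fun S _ => e S, sum_comm]
    refine sum_congr rfl fun p _ => ?_
    rw [sum_comm]
  rw [hL, hR]
  refine sum_le_sum fun p _ => sum_le_sum fun p' _ => ?_
  have hm := mr_nonneg G q θ hS (Sum.inr p)
  have hm' := mr_nonneg G q θ hS (Sum.inr p')
  by_cases h1 : p.1 = p.2
  · have : mrate G q θ (Sum.inr p) = 0 := by
      rcases p with ⟨v, w⟩
      simp only at h1
      subst h1
      exact mr_self G q θ v
    simp [this]
  by_cases h2 : p'.1 = p'.2
  · have : mrate G q θ (Sum.inr p') = 0 := by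
      rcases p' with ⟨v, w⟩
      simp only at h2
      subst h2
      exact mr_self G q θ v
    simp [this]
  refine mul_le_mul_of_nonneg_left ?_ (mul_nonneg hm hm')
  have hRn : ∀ r : V × V, 0 ≤ (if Im {r.1, r.2} {p.1, p.2} σ then
          (1 + ((bl σ p.1).card : ℝ) + ((bl σ p.2).card : ℝ)) ^ k else 0) *
          (if Im {r.1, r.2} {p'.1, p'.2} σ' then (1:ℝ) else 0) := by
    intro r
    split_ifs <;> positivity
  by_cases hex : ∃ S : Finset V, Im S {p.1, p.2} σ ∧ Im S {p'.1, p'.2} σ'
  · obtain ⟨S0, hS1, hS2⟩ := hex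
    obtain ⟨a, b, hab, hab'⟩ := comb h1 h2 hS1 hS2
    have hc : ∑ S : Finset V, (if S.card ≤ k then
          (if Im S {p.1, p.2} σ then (1:ℝ) else 0) * (if Im S {p'.1, p'.2} σ' then 1 else 0)
          else 0) ≤ (1 + ((bl σ p.1).card : ℝ) + ((bl σ p.2).card : ℝ)) ^ k := by
      calc _ ≤ ∑ S : Finset V, (if S.card ≤ k ∧ S ⊆ bl σ p.1 ∪ bl σ p.2 then (1:ℝ) else 0) := by
            refine sum_le_sum fun S _ => ?_
            by_cases hk : S.card ≤ k
            · by_cases hi : Im S {p.1, p.2} σ
              · have := im_sub hi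
                simp only [hk, hi, this, if_true, and_self]
                split_ifs <;> norm_num
              · simp only [hi, if_false, zero_mul]
                split_ifs <;> norm_num
            · simp [hk]
        _ = (((univ : Finset (Finset V)).filter
              (fun S => S.card ≤ k ∧ S ⊆ bl σ p.1 ∪ bl σ p.2)).card : ℝ) := by
            rw [sum_boole]
        _ ≤ ((1 + (bl σ p.1 ∪ bl σ p.2).card : ℕ) : ℝ) ^ k := by
            exact_mod_cast card_small (bl σ p.1 ∪ bl σ p.2) k
        _ ≤ _ := by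
            refine pow_le_pow_left₀ (by positivity) ?_ k
            have := card_union_le (bl σ p.1) (bl σ p.2)
            have h3 : (((bl σ p.1 ∪ bl σ p.2).card : ℕ) : ℝ) ≤
              ((bl σ p.1).card : ℝ) + ((bl σ p.2).card : ℝ) := by exact_mod_cast this
            push_cast
            linarith
    refine hc.trans ?_
    have := single_le_sum (f := fun r : V × V => (if Im {r.1, r.2} {p.1, p.2} σ then
          (1 + ((bl σ p.1).card : ℝ) + ((bl σ p.2).card : ℝ)) ^ k else 0) *
          (if Im {r.1, r.2} {p'.1, p'.2} σ' then (1:ℝ) else 0)) (fun r _ => hRn r)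
          (mem_univ (a, b))
    refine le_trans (le_of_eq ?_) this
    simp [hab, hab']
  · have : ∑ S : Finset V, (if S.card ≤ k then
          (if Im S {p.1, p.2} σ then (1:ℝ) else 0) * (if Im S {p'.1, p'.2} σ' then 1 else 0)
          else 0) = 0 := by
      refine sum_eq_zero fun S _ => ?_
      by_cases hi : Im S {p.1, p.2} σ
      · have hi' : ¬ Im S {p'.1, p'.2} σ' := fun h => hex ⟨S, hi, h⟩
        simp [hi']
      · simp [hi]
    rw [this]
    exact sum_nonneg fun r _ => hRn r

theorem gS_pair {Δ : ℕ} (hS : SA G q θ Δ) (a b : V) (σ : V → Option V) :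
    gS G q θ {a, b} σ ≤ 2 := by
  classical
  unfold gS
  calc ∑ p : V × V, mrate G q θ (Sum.inr p) * (if Im {a, b} {p.1, p.2} σ then (1:ℝ) else 0)
      ≤ ∑ p : V × V, (if ((some p.1, some p.2) : Option V × Option V) ∈
          ({(σ a, σ b), (σ b, σ a)} : Finset (Option V × Option V)) then (1:ℝ) else 0) := by
        refine sum_le_sum fun p _ => ?_
        rcases p with ⟨v, w⟩
        dsimp only
        by_cases hi : Im {a, b} {v, w} σ
        · by_cases hvw : v = w
          · subst hvw
            rw [mr_self, zero_mul]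
            split_ifs <;> norm_num
          · have hmem : ((some v, some w) : Option V × Option V) ∈
                ({(σ a, σ b), (σ b, σ a)} : Finset (Option V × Option V)) := by
              obtain ⟨x, hx, hxv⟩ := hi.2 v (by simp)
              obtain ⟨y, hy, hyw⟩ := hi.2 w (by simp)
              simp only [mem_insert, mem_singleton] at hx hy ⊢
              rw [← hxv, ← hyw]
              rcases hx with rfl | rfl <;> rcases hy with rfl | rfl
              · exact absurd (Option.some_injective _ (hxv.symm.trans hyw)) hvw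
              · exact Or.inl rfl
              · exact Or.inr rfl
              · exact absurd (Option.some_injective _ (hxv.symm.trans hyw)) hvw
            rw [if_pos hi, if_pos hmem, mul_one]
            exact mr_le G q θ hS v w
        · rw [if_neg hi, mul_zero]
          split_ifs <;> norm_num
    _ = ((univ.filter fun p : V × V => ((some p.1, some p.2) : Option V × Option V) ∈
          ({(σ a, σ b), (σ b, σ a)} : Finset (Option V × Option V))).card : ℝ) := by
        rw [sum_boole]
    _ ≤ 2 := by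
        have h1 : (univ.filter fun p : V × V => ((some p.1, some p.2) : Option V × Option V) ∈
          ({(σ a, σ b), (σ b, σ a)} : Finset (Option V × Option V))).card ≤
          ({(σ a, σ b), (σ b, σ a)} : Finset (Option V × Option V)).card := by
          refine card_le_card_of_injOn (fun p => (some p.1, some p.2)) ?_ ?_
          · intro p hp
            simpa using hp
          · intro p _ p' _ h
            simp only [Prod.mk.injEq, Option.some.injEq] at h
            exact Prod.ext h.1 h.2
        have h2 := h1.trans card_le_two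
        exact_mod_cast h2

theorem Gk_le {Δ : ℕ} (hS : SA G q θ Δ) (k : ℕ) {K : ℝ} (hK : 0 ≤ K) (a b : V)
    (σ : V → Option V) : Gk G q θ k {a, b} σ ≤ (1 + 2 * K) ^ k * gS G q θ {a, b} σ +
      (2 * ((Fintype.card V : ℝ) + 1) ^ k) *
        ∑ u, (if K < ((bl σ u).card : ℝ) then (1:ℝ) else 0) := by
  classical
  set U : ℝ := ∑ u, (if K < ((bl σ u).card : ℝ) then (1:ℝ) else 0) with hU
  have hU0 : 0 ≤ U := sum_nonneg fun u _ => by split_ifs <;> norm_num
  have h1 : Gk G q θ k {a, b} σ ≤ gS G q θ {a, b} σ *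
      ((1 + 2 * K) ^ k + ((Fintype.card V : ℝ) + 1) ^ k * U) := by
    unfold Gk gS
    rw [sum_mul]
    refine sum_le_sum fun p _ => ?_
    rcases p with ⟨v, w⟩
    dsimp only
    by_cases hvw : v = w
    · subst hvw
      rw [mr_self]; simp
    by_cases hi : Im {a, b} {v, w} σ
    · rw [if_pos hi, if_pos hi, mul_one]
      refine mul_le_mul_of_nonneg_left ?_ (mr_nonneg G q θ hS _)
      by_cases hv : K < ((bl σ v).card : ℝ) ∨ K < ((bl σ w).card : ℝ)
      · have hU1 : 1 ≤ U := by
          rcases hv with hv | hv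
          · have := single_le_sum (f := fun u => (if K < ((bl σ u).card : ℝ) then (1:ℝ) else 0))
              (fun u _ => by split_ifs <;> norm_num) (mem_univ v)
            simp only [hv, if_true] at this
            exact this
          · have := single_le_sum (f := fun u => (if K < ((bl σ u).card : ℝ) then (1:ℝ) else 0))
              (fun u _ => by split_ifs <;> norm_num) (mem_univ w)
            simp only [hv, if_true] at this
            exact this
        have h2 : (1 + ((bl σ v).card : ℝ) + ((bl σ w).card : ℝ)) ^ k ≤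
            ((Fintype.card V : ℝ) + 1) ^ k := by
          refine pow_le_pow_left₀ (by positivity) ?_ k
          have : (((bl σ v).card + (bl σ w).card : ℕ) : ℝ) ≤ Fintype.card V := by
            exact_mod_cast bl_card hvw σ
          push_cast at this
          linarith
        have h3 : (0:ℝ) ≤ (1 + 2 * K) ^ k := by positivity
        have h4 : (0:ℝ) ≤ ((Fintype.card V : ℝ) + 1) ^ k := by positivity
        nlinarith
      · push Not at hv
        have h2 : (1 + ((bl σ v).card : ℝ) + ((bl σ w).card : ℝ)) ^ k ≤ (1 + 2 * K) ^ k := by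
          refine pow_le_pow_left₀ (by positivity) ?_ k
          linarith [hv.1, hv.2]
        have h4 : (0:ℝ) ≤ ((Fintype.card V : ℝ) + 1) ^ k * U := by positivity
        linarith
    · rw [if_neg hi, if_neg hi]; simp
  refine h1.trans ?_
  have h5 := gS_pair G q θ hS a b σ
  have h6 : (0:ℝ) ≤ ((Fintype.card V : ℝ) + 1) ^ k * U := by positivity
  nlinarith

theorem two_aux {Δ : ℕ} (hS : SA G q θ Δ) (k : ℕ) {t : ℝ} (ht : 0 ≤ t) :
    ∑ S : Finset V, (if S.card ≤ k then (Ws G q θ t S) ^ 2 else 0) ≤
      ∑ p : V × V, src G q θ t (Gk G q θ k {p.1, p.2}) * Wp G q θ t p.1 p.2 := by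
  have h1 : ∀ σ, ∑ S : Finset V, (if S.card ≤ k then Ws G q θ t S else 0) * gS G q θ S σ ≤
      ∑ p : V × V, Wp G q θ t p.1 p.2 * Gk G q θ k {p.1, p.2} σ := by
    intro σ
    have h2 := src_mono G q θ hS ht (fun σ' => pw G q θ hS k σ σ')
    have e1 : (fun σ' => ∑ S : Finset V, (if S.card ≤ k then gS G q θ S σ * gS G q θ S σ' else 0))
        = fun σ' => ∑ S : Finset V, (if S.card ≤ k then gS G q θ S σ else 0) * gS G q θ S σ' := by
      funext σ'
      refine sum_congr rfl fun S _ => ?_
      split_ifs <;> ring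
    rw [e1, src_sum, src_sum] at h2
    refine le_trans (le_of_eq ?_) (h2.trans (le_of_eq ?_))
    · refine sum_congr rfl fun S _ => ?_
      rw [← Ws_eq]
      split_ifs <;> ring
    · refine sum_congr rfl fun p _ => ?_
      rw [← Ws_eq]
      unfold Wp
      ring
  have h2 := src_mono G q θ hS ht h1
  rw [src_sum, src_sum] at h2
  refine le_trans (le_of_eq ?_) (h2.trans (le_of_eq ?_))
  · refine sum_congr rfl fun S _ => ?_
    rw [← Ws_eq]
    split_ifs <;> ring
  · refine sum_congr rfl fun p _ => ?_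
    ring

end

theorem two (hB : S_BLK) : S_TWO := by
  intro V _ _ G q θ Δ hS k t K ht hK
  refine (two_aux G q θ hS k ht).trans ?_
  set n : ℝ := (Fintype.card V : ℝ) with hn
  set E : ℝ := Real.exp (θ / 2 - θ * K / (2 * Δ)) with hE
  have hE0 : 0 < E := Real.exp_pos _
  have hn0 : 0 ≤ n := by positivity
  have hWp : ∀ a b, 0 ≤ Wp G q θ t a b ∧ Wp G q θ t a b ≤ 2 := by
    intro a b
    unfold Wp
    rw [Ws_eq]
    constructor
    · have := src_mono G q θ hS ht (F := fun _ => 0) (fun σ => gS_nonneg G q θ hS {a, b} σ)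
      rwa [src_cst] at this
    · have := src_mono G q θ hS ht (F' := fun _ => 2) (fun σ => gS_pair G q θ hS a b σ)
      rwa [src_cst] at this
  have hG : ∀ a b, src G q θ t (Gk G q θ k {a, b}) ≤
      (1 + 2 * K) ^ k * Wp G q θ t a b + (2 * (n + 1) ^ k) * (n * E) := by
    intro a b
    have h1 := src_mono G q θ hS ht (fun σ => Gk_le G q θ hS k hK a b σ)
    rw [src_add, src_mul, src_mul, src_fsum, ← Ws_eq] at h1
    refine h1.trans ?_
    have h2 : ∑ u, src G q θ t (fun σ => if K < ((bl σ u).card : ℝ) then (1:ℝ) else 0) ≤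
        n * E := by
      calc _ ≤ ∑ _u : V, E := sum_le_sum fun u _ => (hB V G q θ Δ hS u t ht).2 K hK
        _ = n * E := by rw [sum_const, nsmul_eq_mul, hn, card_univ]
    have h3 : (0:ℝ) ≤ 2 * (n + 1) ^ k := by positivity
    have h4 := mul_le_mul_of_nonneg_left h2 h3
    unfold Wp
    linarith
  calc ∑ p : V × V, src G q θ t (Gk G q θ k {p.1, p.2}) * Wp G q θ t p.1 p.2
      ≤ ∑ p : V × V, ((1 + 2 * K) ^ k * (Wp G q θ t p.1 p.2) ^ 2 +
          2 * ((2 * (n + 1) ^ k) * (n * E))) := by
        refine sum_le_sum fun p _ => ?_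
        have h1 := mul_le_mul_of_nonneg_right (hG p.1 p.2) (hWp p.1 p.2).1
        have h2 : (0:ℝ) ≤ (2 * (n + 1) ^ k) * (n * E) := by positivity
        have h3 := mul_le_mul_of_nonneg_left (hWp p.1 p.2).2 h2
        nlinarith
    _ = (1 + 2 * K) ^ k * WW G q θ t + n ^ 2 * (2 * ((2 * (n + 1) ^ k) * (n * E))) := by
        rw [sum_add_distrib, sum_const, nsmul_eq_mul, ← mul_sum, Fintype.sum_prod_type,
          card_univ, Fintype.card_prod]
        unfold WW
        push_cast
        ring
    _ ≤ (1 + 2 * K) ^ k * WW G q θ t + 4 * (n + 1) ^ (k + 3) * E := by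
        have h1 : n ^ 3 ≤ (n + 1) ^ 3 := pow_le_pow_left₀ hn0 (by linarith) 3
        have h2 : (0:ℝ) ≤ 4 * (n + 1) ^ k * E := by positivity
        have h3 := mul_le_mul_of_nonneg_left h1 h2
        have e1 : (n + 1) ^ (k + 3) = (n + 1) ^ k * (n + 1) ^ 3 := pow_add _ _ _
        rw [e1]
        nlinarith

theorem sum_pow_card {V : Type} [Fintype V] [DecidableEq V] (D : Finset V) (u : ℝ) :
    ∑ S : Finset V, (if S ⊆ D then u ^ S.card else 0) = (1 + u) ^ D.card := by
  have h := Finset.prod_add (fun _ : V => u) (fun _ : V => (1:ℝ)) D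
  rw [prod_const, add_comm u 1] at h
  rw [h, ← sum_filter]
  have e : (univ.filter fun S : Finset V => S ⊆ D) = D.powerset := by
    ext S; simp
  rw [e]
  refine sum_congr rfl fun S _ => ?_
  simp

section

variable {V : Type} [Fintype V] [DecidableEq V] (G : SimpleGraph V) (q : ℕ) (θ : ℝ)

theorem tail_pw {Δ : ℕ} (hS : SA G q θ Δ) {u : ℝ} (hu : 0 ≤ u) (σ : V → Option V) :
    ∑ S : Finset V, u ^ S.card * gS G q θ S σ ≤
      ∑ p : V × V, (mrate G q θ (Sum.inr p) / 2) *
        (Real.exp (2 * u * ((bl σ p.1).card : ℝ)) + Real.exp (2 * u * ((bl σ p.2).card : ℝ))) := by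
  classical
  have e1 : ∑ S : Finset V, u ^ S.card * gS G q θ S σ = ∑ p : V × V, mrate G q θ (Sum.inr p) *
      ∑ S : Finset V, (if Im S {p.1, p.2} σ then u ^ S.card else 0) := by
    unfold gS
    simp only [mul_sum]
    rw [sum_comm]
    refine sum_congr rfl fun p _ => sum_congr rfl fun S _ => ?_
    split_ifs <;> ring
  rw [e1]
  refine sum_le_sum fun p _ => ?_
  have hm := mr_nonneg G q θ hS (Sum.inr p)
  rw [div_mul_eq_mul_div, mul_div_assoc]
  refine mul_le_mul_of_nonneg_left ?_ hm
  set x : ℝ := ((bl σ p.1).card : ℝ) with hx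
  set y : ℝ := ((bl σ p.2).card : ℝ) with hy
  calc ∑ S : Finset V, (if Im S {p.1, p.2} σ then u ^ S.card else 0)
      ≤ ∑ S : Finset V, (if S ⊆ bl σ p.1 ∪ bl σ p.2 then u ^ S.card else 0) := by
        refine sum_le_sum fun S _ => ?_
        by_cases hi : Im S {p.1, p.2} σ
        · rw [if_pos hi, if_pos (im_sub hi)]
        · rw [if_neg hi]
          split_ifs <;> positivity
    _ = (1 + u) ^ (bl σ p.1 ∪ bl σ p.2).card := sum_pow_card _ _
    _ ≤ (1 + u) ^ ((bl σ p.1).card + (bl σ p.2).card) :=
        pow_le_pow_right₀ (by linarith) (card_union_le _ _)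
    _ ≤ (Real.exp u) ^ ((bl σ p.1).card + (bl σ p.2).card) := by
        refine pow_le_pow_left₀ (by linarith) ?_ _
        have := Real.add_one_le_exp u
        linarith
    _ = Real.exp (u * x) * Real.exp (u * y) := by
        rw [← Real.exp_nat_mul, ← Real.exp_add]
        congr 1
        push_cast
        ring
    _ ≤ (Real.exp (2 * u * x) + Real.exp (2 * u * y)) / 2 := by
        have h1 : Real.exp (2 * u * x) = Real.exp (u * x) ^ 2 := by
          rw [← Real.exp_nat_mul]; congr 1; push_cast; ring
        have h2 : Real.exp (2 * u * y) = Real.exp (u * y) ^ 2 := by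
          rw [← Real.exp_nat_mul]; congr 1; push_cast; ring
        rw [h1, h2]
        nlinarith [sq_nonneg (Real.exp (u * x) - Real.exp (u * y))]

end

theorem tail (hB : S_BLK) : S_TAIL := by
  intro V _ _ G q θ Δ hS k t u ht hu0 hu1 hu
  have hWs : ∀ S, 0 ≤ Ws G q θ t S := by
    intro S
    rw [Ws_eq]
    have := src_mono G q θ hS ht (F := fun _ => 0) (fun σ => gS_nonneg G q θ hS S σ)
    rwa [src_cst] at this
  have h1 : ∑ S : Finset V, (if k < S.card then u ^ (2 * S.card) * Ws G q θ t S else 0) ≤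
      u ^ (k + 1) * ∑ S : Finset V, u ^ S.card * Ws G q θ t S := by
    rw [mul_sum]
    refine sum_le_sum fun S _ => ?_
    have h0 : 0 ≤ u ^ (k + 1) * (u ^ S.card * Ws G q θ t S) := by
      have := hWs S
      positivity
    split_ifs with hk
    · rw [← mul_assoc]
      refine mul_le_mul_of_nonneg_right ?_ (hWs S)
      rw [two_mul, pow_add]
      refine mul_le_mul_of_nonneg_right ?_ (by positivity)
      exact pow_le_pow_of_le_one hu0 hu1 hk
    · exact h0
  refine h1.trans ?_
  rw [mul_assoc]
  refine mul_le_mul_of_nonneg_left ?_ (by positivity)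
  have h2 := src_mono G q θ hS ht (fun σ => tail_pw G q θ hS hu0 σ)
  rw [src_sum, src_sum] at h2
  have e1 : ∑ S : Finset V, u ^ S.card * Ws G q θ t S =
      ∑ S : Finset V, u ^ S.card * src G q θ t (gS G q θ S) :=
    sum_congr rfl fun S _ => by rw [← Ws_eq]
  rw [e1]
  refine h2.trans ?_
  have hE : Real.exp (2 * u * Δ) ≤ Real.exp (θ / 2) := Real.exp_le_exp.2 (by linarith)
  have hb : ∀ v, src G q θ t (fun σ => Real.exp (2 * u * ((bl σ v).card : ℝ))) ≤
      Real.exp (θ / 2) := fun v =>
    ((hB V G q θ Δ hS v t ht).1 (2 * u) (by positivity) (by linarith)).trans hE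
  calc ∑ p : V × V, mrate G q θ (Sum.inr p) / 2 * src G q θ t (fun σ =>
        Real.exp (2 * u * ((bl σ p.1).card : ℝ)) + Real.exp (2 * u * ((bl σ p.2).card : ℝ)))
      ≤ ∑ p : V × V, mrate G q θ (Sum.inr p) * Real.exp (θ / 2) := by
        refine sum_le_sum fun p _ => ?_
        rw [src_add]
        have := mr_nonneg G q θ hS (Sum.inr p)
        have h3 := hb p.1
        have h4 := hb p.2
        nlinarith
    _ ≤ (Fintype.card V : ℝ) * Real.exp (θ / 2) := by
        rw [← sum_mul, Fintype.sum_prod_type]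
        refine mul_le_mul_of_nonneg_right ?_ (Real.exp_pos _).le
        calc ∑ v, ∑ w, mrate G q θ (Sum.inr (v, w)) ≤ ∑ _v : V, (1:ℝ) :=
              sum_le_sum fun v _ => mr_sum G q θ hS v
          _ = _ := by simp

end Pool.Agent.Y239.U
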