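import Pool.Agent.Y202.U.Stm

set_option autoImplicit false

namespace Pool.Agent.Y239.U

open Finset Pool.Agent.W788.NV Pool.Agent.Y202.U

/-- the walk on source maps by earlier moves and by later moves have the same law -/
theorem srcL {V : Type} [Fintype V] [DecidableEq V] (G : SimpleGraph V) (q : ℕ) (θ t : ℝ)
    (F : (V → Option V) → ℝ) :
    src G q θ t F = sg (mrate G q θ) (opL (V := V) (q := q)) t F some := by
  have hI : S_IN := p_in
  have hL : S_LR := p_lr
  set f : (V × Fin q) ⊕ (V × V) → Option V → Option V := fun e o => o.bind (fe e) with hf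
  have h1 := hI (Option V → Option V) (V → Option V) _ (mrate G q θ)
    (fun e (Φ : Option V → Option V) => (fun x => f e (Φ x))) (opR (V := V) (q := q))
    (fun Φ a => Φ (some a)) (fun e Φ => rfl) F id t
  have h2 := hI (V → Option V) (Option V → Option V) _ (mrate G q θ) (opL (V := V) (q := q))
    (fun e (Φ : Option V → Option V) => (fun x => Φ (f e x)))
    (fun σ o => o.bind σ) (fun e σ => by
      funext o
      cases o <;> simp [hf, opL]) (fun Φ => F (fun a => Φ (some a))) some t
  have h3 := hL (Option V) _ (mrate G q θ) f (fun Φ => F (fun a => Φ (some a))) t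
  have e1 : (fun (o : Option V) => o.bind some) = id := by
    funext o; cases o <;> rfl
  rw [e1] at h2
  have e2 : (fun (σ : V → Option V) => F (fun a => (some a).bind σ)) = F := rfl
  rw [e2] at h2
  rw [h2, h3, h1]
  rfl

/-- moves on the sets -/
def ms {V : Type} [DecidableEq V] {q : ℕ} : (V × Fin q) ⊕ (V × V) → Finset V → Finset V
  | .inl p, A => A.erase p.1
  | .inr p, A => if p.2 ∈ A then insert p.1 A else A.erase p.1

theorem mem_bl {V : Type} [Fintype V] [DecidableEq V] (σ : V → Option V) (v a : V) :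
    a ∈ bl σ v ↔ σ a = some v := by
  simp [bl]

theorem bl_opL {V : Type} [Fintype V] [DecidableEq V] {q : ℕ} (e : (V × Fin q) ⊕ (V × V))
    (σ : V → Option V) (v : V) : bl (opL e σ) v = ms e (bl σ v) := by
  ext a
  rw [mem_bl]
  rcases e with ⟨w, c⟩ | ⟨w, u⟩
  · by_cases h : a = w <;> simp [mem_bl, opL, fe, ms, h]
  · by_cases hu : u ∈ bl σ v
    · have hu' := hu
      simp only [bl, mem_filter, mem_univ, true_and] at hu'
      simp only [ms, hu, if_true]
      by_cases h : a = w <;> simp [bl, opL, fe, h, hu']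
    · have hu' := hu
      simp only [bl, mem_filter, mem_univ, true_and] at hu'
      simp only [ms, hu, if_false]
      by_cases h : a = w <;> simp [bl, opL, fe, h, hu']

theorem dep_mL {V : Type} [Fintype V] [DecidableEq V] {q : ℕ} (e : (V × Fin q) ⊕ (V × V))
    (Φ : Mp V q) (v : V) : dep (mL e Φ) v = ms e (dep Φ v) := by
  have h := p_dl V q Φ v
  rcases e with ⟨w, c⟩ | ⟨w, u⟩
  · exact h.1 w c
  · by_cases hu : u ∈ dep Φ v
    · simp only [ms, hu, if_true]; exact h.2.1 w u hu
    · simp only [ms, hu, if_false]; exact h.2.2.1 w u hu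

/-- the blocks and the dependence sets have the same law -/
theorem src_bl {V : Type} [Fintype V] [DecidableEq V] (G : SimpleGraph V) (q : ℕ) (hq : 2 ≤ q)
    (θ t : ℝ) (v : V) (h : Finset V → ℝ) :
    src G q θ t (fun σ => h (bl σ v)) = ex G q θ t (fun Φ => h (dep Φ v)) := by
  have hI : S_IN := p_in
  rw [srcL]
  have h1 := hI (V → Option V) (Finset V) _ (mrate G q θ) (opL (V := V) (q := q))
    (ms (V := V) (q := q)) (fun σ => bl σ v) (fun e σ => bl_opL e σ v) h some t
  have h2 := hI (Mp V q) (Finset V) _ (mrate G q θ) (mL (V := V) (q := q))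
    (ms (V := V) (q := q)) (fun Φ => dep Φ v) (fun e Φ => dep_mL e Φ v) h id t
  have h3 : ex G q θ t (fun Φ => h (dep Φ v)) =
      sg (mrate G q θ) (mL (V := V) (q := q)) t (fun Φ => h (dep Φ v)) id :=
    p_lr (V → Fin q) _ (mrate G q θ) act _ t
  rw [h3, h1, h2]
  have e1 : bl (some : V → Option V) v = {v} := by
    ext a; simp [bl]
  have e2 : dep (id : Mp V q) v = {v} := by
    refine subset_antisymm (p_dl V q id v).2.2.2 ?_
    intro a ha
    rw [mem_singleton] at ha
    subst ha
    unfold dep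
    rw [mem_filter]
    refine ⟨mem_univ _, fun _ => ⟨0, by omega⟩, ⟨1, by omega⟩, ?_⟩
    simp
  rw [e1, e2]

theorem blk : S_BLK := by
  intro V _ _ G q θ Δ hS v t ht
  have hB := p_bnd V G q θ Δ (by have := hS.q2; omega) hS.t0 hS.t1 hS.d1 hS.dD v t ht
  have hr := (p_tot V G q θ (by have := hS.q2; omega) hS.t0.le hS.t1 hS.d1).1
  have hcard : ∀ Φ : Mp V q, ((dep Φ v).card : ℝ) ≤ wdep G Φ v := by
    intro Φ
    unfold wdep
    rw [card_eq_sum_ones, Nat.cast_sum]
    refine sum_le_sum fun w _ => ?_
    have := hS.d1 w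
    push_cast
    exact_mod_cast this
  constructor
  · intro l hl hl2
    rw [src_bl G q hS.q2 θ t v (fun A => Real.exp (l * (A.card : ℝ)))]
    refine le_trans ?_ (hB.2.1 l hl hl2)
    refine p_mk.mono _ _ _ _ _ _ id t hr ht (fun Φ => ?_)
    exact Real.exp_le_exp.2 (mul_le_mul_of_nonneg_left (hcard Φ) hl)
  · intro M hM
    rw [src_bl G q hS.q2 θ t v (fun A => if M < (A.card : ℝ) then 1 else 0)]
    exact hB.2.2.1 M hM

end Pool.Agent.Y239.U
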